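import Pool.Agent.Helper10.AB.GoalsF4

/-! # Project AB, packet EDR: derivatives of the exponent along the lines. -/

open MeasureTheory Set Filter Topology
open scoped ContDiff

noncomputable section

namespace Pool.Agent.Helper34.AB.EDR

open Pool.Agent.Helper24.AB Pool.Agent.Helper10.AB
open Pool.Agent.Helper15.AB (S_XI S_ATL XiI)

theorem stripO (a : ℝ) : IsOpen (strip a) := by
  have : strip a = (fun w : ℂ => |w.re|) ⁻¹' Iio a := rfl
  rw [this]
  exact isOpen_Iio.preimage (by fun_prop)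

theorem dT_smooth {b : ℝ} {f : ℂ → ℝ} (h : ContDiffOn ℝ ∞ f (strip b)) :
    ContDiffOn ℝ ∞ (dT f) (strip b) := by
  have h1 : ContDiffOn ℝ ∞ (fderiv ℝ f) (strip b) := h.fderiv_of_isOpen (stripO b) (by simp)
  exact h1.clm_apply contDiffOn_const

theorem dTk_smooth {b : ℝ} {f : ℂ → ℝ} (h : ContDiffOn ℝ ∞ f (strip b)) (k : ℕ) :
    ContDiffOn ℝ ∞ (dT^[k] f) (strip b) := by
  induction k with
  | zero => exact h
  | succ k ih =>
    rw [Function.iterate_succ_apply']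
    exact dT_smooth ih

theorem dT_eqv {c : ℝ} {T : ℂ} {f : ℂ → ℝ} (h : ∀ w, f (w + T) = c * f w) :
    ∀ w, dT f (w + T) = c * dT f w := by
  intro w
  unfold dT
  have h1 : fderiv ℝ (fun w => f (w + T)) w = fderiv ℝ f (w + T) := fderiv_comp_add_right T
  have h2 : (fun w => f (w + T)) = fun w => c • f w := by funext w; rw [h, smul_eq_mul]
  have h3 : fderiv ℝ (fun w => c • f w) w = c • fderiv ℝ f w := by
    have := fderiv_const_smul_field (𝕜 := ℝ) (f := f) c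
    exact congrFun this w
  rw [← h1, h2, h3]
  simp

theorem dTk_eqv {c : ℝ} {T : ℂ} {f : ℂ → ℝ} (h : ∀ w, f (w + T) = c * f w) (k : ℕ) :
    ∀ w, dT^[k] f (w + T) = c * dT^[k] f w := by
  induction k with
  | zero => exact h
  | succ k ih =>
    rw [Function.iterate_succ_apply']
    exact dT_eqv ih

theorem lam_gt : (1 : ℝ) < lam := by
  have : (0 : ℝ) ≤ Real.sqrt 5 := Real.sqrt_nonneg 5
  unfold lam; linarith

theorem kap_nn : 0 ≤ kap := by
  unfold kap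
  exact div_nonneg (Real.log_nonneg lam_gt.le) (by positivity)

theorem kap_le1 : kap ≤ 1 := by
  have h5 : Real.sqrt 5 < 3 := by
    rw [Real.sqrt_lt' (by norm_num)]; norm_num
  have h1 : Real.log lam ≤ lam - 1 := Real.log_le_sub_one_of_pos (by linarith [lam_gt])
  have h2 : lam ≤ 3 := by unfold lam; linarith
  have h3 := Real.pi_gt_three
  unfold kap
  rw [div_le_one (by positivity)]
  linarith

theorem iter_int {c : ℝ} (hc : 0 < c) {T : ℂ} {g : ℂ → ℝ} (h : ∀ w, g (w + T) = c * g w) (m : ℤ) :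
    ∀ w, g (w + m * T) = c ^ m * g w := by
  induction m using Int.induction_on with
  | zero => intro w; simp
  | succ n ih =>
    intro w
    have e : w + ((n : ℤ) + 1 : ℤ) * T = (w + (n : ℤ) * T) + T := by push_cast; ring
    rw [e, h, ih, zpow_add_one₀ hc.ne']; ring
  | pred n ih =>
    intro w
    have e : w + ((-(n : ℤ) : ℤ) : ℂ) * T = (w + ((-(n : ℤ) - 1 : ℤ) : ℂ) * T) + T := by push_cast; ring
    have h1 := ih w
    rw [e, h] at h1
    rw [zpow_sub_one₀ hc.ne']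
    field_simp
    linarith

/-- (1) growth of the derivatives of the potential -/
theorem growth {b a : ℝ} (hab : a < b) {g : ℂ → ℝ} (hg : ContinuousOn g (strip b))
    (h : ∀ w, g (w + 2 * Real.pi * Complex.I) = lam * g w) :
    ∃ C : ℝ, 0 ≤ C ∧ ∀ w ∈ strip a, |g w| ≤ C * Real.exp (kap * w.im) := by
  have hc : IsCompact (Icc (-a) a ×ℂ Icc 0 (2 * Real.pi)) := isCompact_Icc.reProdIm isCompact_Icc
  have hsub : Icc (-a) a ×ℂ Icc 0 (2 * Real.pi) ⊆ strip b := by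
    intro w hw
    obtain ⟨h1, -⟩ := Complex.mem_reProdIm.1 hw
    change |w.re| < b
    exact (abs_le.2 h1).trans_lt hab
  obtain ⟨C, hC⟩ := hc.exists_bound_of_continuousOn (hg.mono hsub)
  refine ⟨max C 0, le_max_right _ _, ?_⟩
  intro w hw
  have hpi := Real.pi_pos
  set m : ℤ := ⌊w.im / (2 * Real.pi)⌋ with hm
  set w0 : ℂ := w - m * (2 * Real.pi * Complex.I) with hw0
  have e0 : w = w0 + m * (2 * Real.pi * Complex.I) := by rw [hw0]; ring
  have hre : w0.re = w.re := by rw [hw0]; simp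
  have him : w0.im = w.im - m * (2 * Real.pi) := by rw [hw0]; simp
  have f1 : (m : ℝ) ≤ w.im / (2 * Real.pi) := Int.floor_le _
  have f2 : w.im / (2 * Real.pi) < m + 1 := Int.lt_floor_add_one _
  rw [le_div_iff₀ (by positivity)] at f1
  rw [div_lt_iff₀ (by positivity)] at f2
  have hmem : w0 ∈ Icc (-a) a ×ℂ Icc 0 (2 * Real.pi) := by
    rw [Complex.mem_reProdIm, hre, him]
    exact ⟨abs_le.1 (le_of_lt hw), by constructor <;> linarith⟩
  have h1 := hC w0 hmem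
  rw [Real.norm_eq_abs] at h1
  have h2 : g w = lam ^ m * g w0 := by
    conv_lhs => rw [e0]
    exact iter_int (by linarith [lam_gt]) h m w0
  have hl : (0 : ℝ) < lam := by linarith [lam_gt]
  have h3 : lam ^ m = Real.exp (kap * (m * (2 * Real.pi))) := by
    have : kap * (m * (2 * Real.pi)) = Real.log lam * m := by
      unfold kap; field_simp
    rw [this, ← Real.rpow_intCast, Real.rpow_def_of_pos hl]
  rw [h2, abs_mul, abs_of_pos (zpow_pos hl m), h3, mul_comm]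
  apply mul_le_mul (h1.trans (le_max_left _ _)) _ (Real.exp_pos _).le (le_max_right _ _)
  apply Real.exp_le_exp.2
  exact mul_le_mul_of_nonneg_left f1 kap_nn

/-- (2) the derivatives of `J·X` -/
theorem lin_deriv (κ α α' c1 c2 c3 : ℝ) (P : ℝ → ℝ) (hP : ContDiff ℝ ∞ P) (k : ℕ) :
    iteratedDeriv (k + 1) (fun t => α * Real.exp (κ * t) * c1 + α' * Real.exp (-(κ * t)) * c2 + c3 -
      α * P t) = fun t => κ ^ (k + 1) * (α * Real.exp (κ * t)) * c1 +
        (-κ) ^ (k + 1) * (α' * Real.exp (-(κ * t))) * c2 - α * iteratedDeriv (k + 1) P t := by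
  have he : ∀ (c t : ℝ), HasDerivAt (fun t => Real.exp (c * t)) (c * Real.exp (c * t)) t := by
    intro c t
    have h1 : HasDerivAt (fun t => c * t) c t := by simpa using (hasDerivAt_id t).const_mul c
    have := h1.exp
    rwa [mul_comm] at this
  have he' : ∀ (c t : ℝ), HasDerivAt (fun t => Real.exp (-(c * t))) (-c * Real.exp (-(c * t))) t := by
    intro c t
    have h1 : HasDerivAt (fun t => -(c * t)) (-c) t := by
      have h2 : HasDerivAt (fun t => (-c) * t) (-c) t := by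
        simpa using (hasDerivAt_id t).const_mul (-c)
      have e : (fun t => -(c * t)) = fun t => (-c) * t := by funext t; ring
      rw [e]; exact h2
    have := h1.exp
    rwa [mul_comm] at this
  induction k with
  | zero =>
    rw [zero_add, iteratedDeriv_one]
    funext t
    have hPd : HasDerivAt P (iteratedDeriv 1 P t) t := by
      rw [iteratedDeriv_one]
      exact ((hP.differentiable (by simp)) t).hasDerivAt
    have h := (((((he κ t).const_mul α).mul_const c1).add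
      (((he' κ t).const_mul α').mul_const c2)).add_const c3).sub (hPd.const_mul α)
    refine h.deriv.trans ?_
    ring
  | succ k ih =>
    rw [iteratedDeriv_succ, ih]
    funext t
    have hPd : HasDerivAt (iteratedDeriv (k + 1) P) (iteratedDeriv (k + 1 + 1) P t) t := by
      rw [iteratedDeriv_succ (n := k + 1)]
      exact ((hP.differentiable_iteratedDeriv (k + 1) (by exact_mod_cast WithTop.coe_lt_top _)) t).hasDerivAt
    have h := ((((((he κ t).const_mul α).const_mul (κ ^ (k + 1))).mul_const c1).add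
      ((((he' κ t).const_mul α').const_mul ((-κ) ^ (k + 1))).mul_const c2))).sub (hPd.const_mul α)
    refine h.deriv.trans ?_
    ring

theorem lin_smooth (κ α α' c1 c2 c3 : ℝ) (P : ℝ → ℝ) (hP : ContDiff ℝ ∞ P) :
    ContDiff ℝ ∞ (fun t => α * Real.exp (κ * t) * c1 + α' * Real.exp (-(κ * t)) * c2 + c3 -
      α * P t) := by
  fun_prop

theorem Wge (J : Fin 3 → ℤ) (t : ℝ) : 2 ≤ WJ J t ∧ |uf (alp J) t| ≤ WJ J t ∧
    |vf (alp' J) t| ≤ WJ J t := by
  have h1 := abs_nonneg (uf (alp J) t)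
  have h2 := abs_nonneg (vf (alp' J) t)
  have h3 := abs_nonneg (J 2 : ℝ)
  unfold WJ Wf
  refine ⟨by linarith, by linarith, by linarith⟩

/-- (3) the function `Φ_J` -/
theorem phi_part (hD : S_DTI) (h2 : S_PHI2) (h3 : S_PHI3) (hW : S_WW) {a A δ₀ ρ₀ : ℝ} {s : ℝ → ℝ}
    {p : ℂ → ℝ} {B : BlockData} (hd : Dat a A δ₀ ρ₀ s p B) :
    (∀ (J : Fin 3 → ℤ) (σ : ℝ), |σ| < a → ContDiff ℝ ∞ (fun t : ℝ => PhiJ a A s p J ⟨σ, t⟩)) ∧
    ∀ k : ℕ, 1 ≤ k → ∃ (C : ℝ) (N : ℕ), ∀ (J : Fin 3 → ℤ) (σ t : ℝ), |σ| < a →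
      |iteratedDeriv k (fun t : ℝ => PhiJ a A s p J ⟨σ, t⟩) t| ≤ C * WJ J t ^ N := by
  have hW5 := hW.2.2.2.2.1
  have hcase : ∀ J : Fin 3 → ℤ, ¬ (J 0 ≠ 0 ∨ J 1 ≠ 0) → ∀ σ : ℝ,
      (fun t : ℝ => PhiJ a A s p J ⟨σ, t⟩) = fun _ => PhiJ a A s p J ⟨σ, 0⟩ := by
    intro J hJ σ
    push Not at hJ
    funext t
    have e1 : alp J = 0 := by unfold alp; rw [hJ.1, hJ.2]; simp
    have e2 : alp' J = 0 := by unfold alp'; rw [hJ.1, hJ.2]; simp
    unfold PhiJ Phi Phi0 Ff gf uf vf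
    rw [e1, e2]
    simp
  constructor
  · intro J σ hσ
    by_cases hJ : J 0 ≠ 0 ∨ J 1 ≠ 0
    · have hs := (h2 a A δ₀ ρ₀ s p B hd.prof hd.pot hd.small (alp J) (alp' J) (J 2) (hW5 J hJ).1).2.1
      exact (hD ℝ a _ hs σ hσ).1
    · rw [hcase J hJ σ]
      exact contDiff_const
  · intro k hk
    obtain ⟨C, N, hC⟩ := (h3 a A δ₀ ρ₀ s p B hd.prof hd.pot).1 k hk
    refine ⟨|C|, N, ?_⟩
    intro J σ t hσ
    have hWp : 0 ≤ WJ J t ^ N := pow_nonneg (by linarith [(Wge J t).1]) N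
    by_cases hJ : J 0 ≠ 0 ∨ J 1 ≠ 0
    · have hs := (h2 a A δ₀ ρ₀ s p B hd.prof hd.pot hd.small (alp J) (alp' J) (J 2) (hW5 J hJ).1).2.1
      have e := (hD ℝ a _ hs σ hσ).2 k t
      have hb := (hC (alp J) (alp' J) (J 2) (hW5 J hJ).1 ⟨σ, t⟩ hσ).1
      unfold PhiJ
      rw [e]
      exact hb.trans (mul_le_mul_of_nonneg_right (le_abs_self C) hWp)
    · rw [hcase J hJ σ, iteratedDeriv_const]
      rw [if_neg (by omega)]
      rw [abs_zero]
      exact mul_nonneg (abs_nonneg C) hWp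

theorem main (hD : S_DTI) (hE : S_EQV) (hA : S_ATL) (h2 : S_PHI2) (h3 : S_PHI3) (hW : S_WW) :
    S_EDR := by
  intro a A δ₀ ρ₀ s p B hd
  obtain ⟨hPs, hPb⟩ := phi_part hD h2 h3 hW hd
  have ha := hd.prof.a_pos
  have hApos := hd.prof.A_pos
  have h7 := (hE a A δ₀ ρ₀ s p B hd).2.2.2.2.2.2.1
  have hab : a < 3 * a / 2 := by linarith
  have hfun : ∀ (J : Fin 3 → ℤ) (σ : ℝ) (ζ : Fin 3 → ℝ),
      (fun t : ℝ => Jd J (XX a A s p (⟨σ, t⟩, ζ))) = fun t => alp J * Real.exp (kap * t) *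
        (A + Real.sqrt (Atl a A s σ) * ζ 0) + alp' J * Real.exp (-(kap * t)) * (2 * A * ζ 1) +
        J 2 * (2 * A * ζ 2) - alp J * p ⟨σ, t⟩ := by
    intro J σ ζ
    funext t
    rw [h7 J (⟨σ, t⟩, ζ)]
    rfl
  have hp := hD ℝ (3 * a / 2) p hd.pot.smooth
  have hXs : ∀ (J : Fin 3 → ℤ) (σ : ℝ) (ζ : Fin 3 → ℝ), |σ| < a →
      ContDiff ℝ ∞ (fun t : ℝ => Jd J (XX a A s p (⟨σ, t⟩, ζ))) := by
    intro J σ ζ hσ
    rw [hfun]
    exact lin_smooth _ _ _ _ _ _ _ (hp σ (hσ.trans hab)).1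
  refine ⟨fun J σ ζ hσ _ => (hPs J σ hσ).add (hXs J σ ζ hσ), ?_⟩
  intro k hk
  obtain ⟨C1, N1, hC1⟩ := hPb k hk
  obtain ⟨Cp, hCp0, hCp⟩ := growth hab ((dTk_smooth hd.pot.smooth k).continuousOn)
    (dTk_eqv hd.pot.p1 k)
  obtain ⟨M, hM⟩ := (isCompact_Icc (a := -a) (b := a)).exists_bound_of_continuousOn
    ((Real.continuous_sqrt.comp (hA a A s hd.prof).1.continuous).continuousOn)
  set D : ℝ := A + |M| * a + 2 * A * a + Cp with hDdef
  have hD0 : 0 ≤ D := by positivity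
  refine ⟨|C1| + D, N1 + 1, ?_⟩
  intro J σ ζ t hσ hζ
  obtain ⟨j, rfl⟩ : ∃ j, k = j + 1 := ⟨k - 1, by omega⟩
  obtain ⟨w2, wu, wv⟩ := Wge J t
  have hsum : iteratedDeriv (j + 1) (fun t : ℝ => PhiJ a A s p J ⟨σ, t⟩ +
      Jd J (XX a A s p (⟨σ, t⟩, ζ))) t = iteratedDeriv (j + 1) (fun t : ℝ => PhiJ a A s p J ⟨σ, t⟩) t +
      iteratedDeriv (j + 1) (fun t : ℝ => Jd J (XX a A s p (⟨σ, t⟩, ζ))) t := by
    apply iteratedDeriv_fun_add
    · exact ((hPs J σ hσ).of_le (by exact_mod_cast le_top)).contDiffAt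
    · exact ((hXs J σ ζ hσ).of_le (by exact_mod_cast le_top)).contDiffAt
  have hz : ∀ i : Fin 3, |ζ i| ≤ a := by
    intro i
    have h1 : ζ 0 ^ 2 + ζ 1 ^ 2 + ζ 2 ^ 2 < a ^ 2 - σ ^ 2 := hζ
    apply abs_le_of_sq_le_sq _ ha.le
    fin_cases i
    · change ζ 0 ^ 2 ≤ a ^ 2; nlinarith [sq_nonneg (ζ 1), sq_nonneg (ζ 2), sq_nonneg σ]
    · change ζ 1 ^ 2 ≤ a ^ 2; nlinarith [sq_nonneg (ζ 0), sq_nonneg (ζ 2), sq_nonneg σ]
    · change ζ 2 ^ 2 ≤ a ^ 2; nlinarith [sq_nonneg (ζ 1), sq_nonneg (ζ 0), sq_nonneg σ]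
  have hM' : |Real.sqrt (Atl a A s σ)| ≤ |M| := by
    have := hM σ (abs_le.1 hσ.le)
    exact this.trans (le_abs_self M)
  have hc1 : |A + Real.sqrt (Atl a A s σ) * ζ 0| ≤ A + |M| * a := by
    refine (abs_add_le _ _).trans ?_
    rw [abs_of_pos hApos, abs_mul]
    have := mul_le_mul hM' (hz 0) (abs_nonneg _) (abs_nonneg _)
    linarith
  have hc2 : |2 * A * ζ 1| ≤ 2 * A * a := by
    rw [abs_mul, abs_of_pos (by positivity)]
    exact mul_le_mul_of_nonneg_left (hz 1) (by positivity)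
  have hk1 : |kap ^ (j + 1)| ≤ 1 := by
    rw [abs_of_nonneg (pow_nonneg kap_nn _)]
    exact pow_le_one₀ kap_nn kap_le1
  have hk2 : |(-kap) ^ (j + 1)| ≤ 1 := by
    rw [abs_pow, abs_neg, ← abs_pow]
    exact hk1
  have hX : |iteratedDeriv (j + 1) (fun t : ℝ => Jd J (XX a A s p (⟨σ, t⟩, ζ))) t| ≤ D * WJ J t := by
    rw [hfun, lin_deriv _ _ _ _ _ _ _ (hp σ (hσ.trans hab)).1]
    dsimp only
    rw [(hp σ (hσ.trans hab)).2 (j + 1) t]
    have hg := hCp ⟨σ, t⟩ hσ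
    change |dT^[j + 1] p ⟨σ, t⟩| ≤ Cp * Real.exp (kap * t) at hg
    have t1 : |kap ^ (j + 1) * (alp J * Real.exp (kap * t)) *
        (A + Real.sqrt (Atl a A s σ) * ζ 0)| ≤ (A + |M| * a) * WJ J t := by
      rw [abs_mul, abs_mul, mul_comm]
      apply mul_le_mul hc1 _ (by positivity) (by positivity)
      calc |kap ^ (j + 1)| * |alp J * Real.exp (kap * t)| ≤ 1 * |alp J * Real.exp (kap * t)| :=
            mul_le_mul_of_nonneg_right hk1 (abs_nonneg _)
        _ = |alp J * Real.exp (kap * t)| := one_mul _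
        _ ≤ WJ J t := wu
    have t2 : |(-kap) ^ (j + 1) * (alp' J * Real.exp (-(kap * t))) * (2 * A * ζ 1)| ≤
        2 * A * a * WJ J t := by
      rw [abs_mul, abs_mul, mul_comm]
      apply mul_le_mul hc2 _ (by positivity) (by positivity)
      calc |(-kap) ^ (j + 1)| * |alp' J * Real.exp (-(kap * t))| ≤
            1 * |alp' J * Real.exp (-(kap * t))| := mul_le_mul_of_nonneg_right hk2 (abs_nonneg _)
        _ = |alp' J * Real.exp (-(kap * t))| := one_mul _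
        _ ≤ WJ J t := wv
    have t3 : |alp J * dT^[j + 1] p ⟨σ, t⟩| ≤ Cp * WJ J t := by
      rw [abs_mul]
      calc |alp J| * |dT^[j + 1] p ⟨σ, t⟩| ≤ |alp J| * (Cp * Real.exp (kap * t)) :=
            mul_le_mul_of_nonneg_left hg (abs_nonneg _)
        _ = Cp * (|alp J| * Real.exp (kap * t)) := by ring
        _ = Cp * |uf (alp J) t| := by
            unfold uf; rw [abs_mul, abs_of_pos (Real.exp_pos _)]
        _ ≤ Cp * WJ J t := mul_le_mul_of_nonneg_left wu hCp0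
    have t4 := abs_sub (kap ^ (j + 1) * (alp J * Real.exp (kap * t)) *
        (A + Real.sqrt (Atl a A s σ) * ζ 0) +
        (-kap) ^ (j + 1) * (alp' J * Real.exp (-(kap * t))) * (2 * A * ζ 1))
        (alp J * dT^[j + 1] p ⟨σ, t⟩)
    have t5 := abs_add_le (kap ^ (j + 1) * (alp J * Real.exp (kap * t)) *
        (A + Real.sqrt (Atl a A s σ) * ζ 0))
        ((-kap) ^ (j + 1) * (alp' J * Real.exp (-(kap * t))) * (2 * A * ζ 1))
    have e : D * WJ J t = (A + |M| * a) * WJ J t + 2 * A * a * WJ J t + Cp * WJ J t := by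
      rw [hDdef]; ring
    rw [e]
    linarith
  rw [hsum]
  have hw1 : (1 : ℝ) ≤ WJ J t := by linarith
  have p1 : WJ J t ^ N1 ≤ WJ J t ^ (N1 + 1) := pow_le_pow_right₀ hw1 (by omega)
  have p2 : WJ J t ≤ WJ J t ^ (N1 + 1) := by
    calc WJ J t = WJ J t ^ 1 := (pow_one _).symm
      _ ≤ WJ J t ^ (N1 + 1) := pow_le_pow_right₀ hw1 (by omega)
  have q1 : C1 * WJ J t ^ N1 ≤ |C1| * WJ J t ^ (N1 + 1) :=
    mul_le_mul (le_abs_self C1) p1 (pow_nonneg (by linarith) _) (abs_nonneg _)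
  have q2 : D * WJ J t ≤ D * WJ J t ^ (N1 + 1) := mul_le_mul_of_nonneg_left p2 hD0
  calc _ ≤ _ := abs_add_le _ _
    _ ≤ C1 * WJ J t ^ N1 + D * WJ J t := add_le_add (hC1 J σ t hσ) hX
    _ ≤ |C1| * WJ J t ^ (N1 + 1) + D * WJ J t ^ (N1 + 1) := add_le_add q1 q2
    _ = (|C1| + D) * WJ J t ^ (N1 + 1) := by ring

end Pool.Agent.Helper34.AB.EDR

namespace Pool.Agent.Helper34.AB

open Pool.Agent.Helper24.AB Pool.Agent.Helper10.AB
open Pool.Agent.Helper15.AB (S_ATL)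

theorem edr (hD : S_DTI) (hE : S_EQV) (hA : S_ATL) (h2 : S_PHI2) (h3 : S_PHI3) (hW : S_WW) :
    S_EDR := EDR.main hD hE hA h2 h3 hW

end Pool.Agent.Helper34.AB
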