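import Pool.Agent.Helper10.AB.GoalsF1

/-! # Project AB, packet EXPD: derivatives of `exp ∘ ψ`. -/

open MeasureTheory Set Filter Topology
open scoped ContDiff

noncomputable section

namespace Pool.Agent.Helper34.AB

open Pool.Agent.Helper10.AB

theorem expd_aux : ∀ k : ℕ, ∃ C : ℝ, 0 ≤ C ∧ ∀ (ψ : ℝ → ℝ) (t B : ℝ), ContDiff ℝ ∞ ψ → 1 ≤ B →
    (∀ j : ℕ, 1 ≤ j → j ≤ k → |iteratedDeriv j ψ t| ≤ B) →
      |iteratedDeriv k (fun t => Real.exp (ψ t)) t| ≤ C * B ^ k * Real.exp (ψ t) := by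
  intro k
  induction k using Nat.strong_induction_on with
  | _ k ih =>
    rcases k with _ | k
    · refine ⟨1, zero_le_one, fun ψ t B _ _ _ => ?_⟩
      rw [iteratedDeriv_zero, pow_zero, one_mul, one_mul, abs_of_pos (Real.exp_pos _)]
    · have ih' : ∀ j : Fin (k + 1), ∃ C : ℝ, 0 ≤ C ∧ ∀ (ψ : ℝ → ℝ) (t B : ℝ), ContDiff ℝ ∞ ψ →
          1 ≤ B → (∀ i : ℕ, 1 ≤ i → i ≤ (j : ℕ) → |iteratedDeriv i ψ t| ≤ B) →
            |iteratedDeriv j (fun t => Real.exp (ψ t)) t| ≤ C * B ^ (j : ℕ) * Real.exp (ψ t) :=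
        fun j => ih j j.2
      choose C hC0 hC using ih'
      let Cf : ℕ → ℝ := fun j => if h : j < k + 1 then C ⟨j, h⟩ else 0
      have hCf0 : ∀ j, 0 ≤ Cf j := by
        intro j
        change 0 ≤ (if h : j < k + 1 then C ⟨j, h⟩ else 0)
        split_ifs with h
        · exact hC0 _
        · exact le_rfl
      refine ⟨∑ i ∈ Finset.range (k + 1), (k.choose i : ℝ) * Cf (k - i),
        Finset.sum_nonneg fun i _ => mul_nonneg (Nat.cast_nonneg _) (hCf0 _), ?_⟩
      intro ψ t B hψ hB hj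
      have hB0 : 0 < B := lt_of_lt_of_le one_pos hB
      have hE : ContDiff ℝ ∞ (fun t => Real.exp (ψ t)) := hψ.exp
      have hd : deriv (fun t => Real.exp (ψ t)) = fun s => deriv ψ s * Real.exp (ψ s) := by
        funext s
        have := ((hψ.differentiable (by simp)) s).hasDerivAt.exp.deriv
        rw [this, mul_comm]
      have hψ' : ContDiff ℝ ∞ (deriv ψ) := by
        have h1 : ContDiff ℝ (∞ + 1) ψ := by simpa using hψ
        exact (contDiff_succ_iff_deriv.1 h1).2.2
      rw [iteratedDeriv_succ', hd]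
      have h1 := norm_iteratedFDeriv_mul_le (𝕜 := ℝ) (N := ∞) hψ' hE t (n := k) (by exact_mod_cast le_top)
      simp only [norm_iteratedFDeriv_eq_norm_iteratedDeriv, Real.norm_eq_abs] at h1
      refine h1.trans ?_
      rw [Finset.sum_mul, Finset.sum_mul]
      refine Finset.sum_le_sum fun i hi => ?_
      have hik : i ≤ k := Nat.lt_succ_iff.1 (Finset.mem_range.1 hi)
      have e1 : |iteratedDeriv i (deriv ψ) t| ≤ B := by
        rw [← iteratedDeriv_succ']
        exact hj (i + 1) (by omega) (by omega)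
      have e2 : |iteratedDeriv (k - i) (fun t => Real.exp (ψ t)) t| ≤
          Cf (k - i) * B ^ k * Real.exp (ψ t) := by
        have hlt : k - i < k + 1 := by omega
        have hv : Cf (k - i) = C ⟨k - i, hlt⟩ := dif_pos hlt
        rw [hv]
        refine (hC ⟨k - i, hlt⟩ ψ t B hψ hB fun j h1 h2 => hj j h1 ?_).trans ?_
        · have : j ≤ k - i := h2
          omega
        · have : B ^ (k - i) ≤ B ^ k := pow_le_pow_right₀ hB (by omega)
          have h0 := hC0 ⟨k - i, hlt⟩
          have hx := (Real.exp_pos (ψ t)).le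
          exact mul_le_mul_of_nonneg_right (mul_le_mul_of_nonneg_left this h0) hx
      have e3 : |iteratedDeriv i (deriv ψ) t| * |iteratedDeriv (k - i) (fun t => Real.exp (ψ t)) t| ≤
          B * (Cf (k - i) * B ^ k * Real.exp (ψ t)) :=
        mul_le_mul e1 e2 (abs_nonneg _) hB0.le
      have e4 : (0 : ℝ) ≤ (k.choose i : ℝ) := Nat.cast_nonneg _
      calc (k.choose i : ℝ) * |iteratedDeriv i (deriv ψ) t| *
            |iteratedDeriv (k - i) (fun t => Real.exp (ψ t)) t|
          = (k.choose i : ℝ) * (|iteratedDeriv i (deriv ψ) t| *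
            |iteratedDeriv (k - i) (fun t => Real.exp (ψ t)) t|) := by ring
        _ ≤ (k.choose i : ℝ) * (B * (Cf (k - i) * B ^ k * Real.exp (ψ t))) :=
            mul_le_mul_of_nonneg_left e3 e4
        _ = (k.choose i : ℝ) * Cf (k - i) * B ^ (k + 1) * Real.exp (ψ t) := by ring

theorem expd : S_EXPD := by
  intro k
  obtain ⟨C, _, hC⟩ := expd_aux k
  exact ⟨C, hC⟩

end Pool.Agent.Helper34.AB
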