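import Pool.Agent.Helper15.AB.GoalsG

/-! # Project AB, packet DETR: the real determinant of a complex linear map. -/

noncomputable section

namespace Pool.Agent.Helper34.AB

open Pool.Agent.Helper24.AB Pool.Agent.Helper15.AB

theorem detr : S_DETR := by
  intro L
  have h := LinearMap.det_restrictScalars (R := ℝ) (S := ℂ) (f := (L : V4 →ₗ[ℂ] V4))
  rw [Algebra.norm_complex_eq] at h
  have h2 : (L.restrictScalars ℝ).det = LinearMap.det ((L : V4 →ₗ[ℂ] V4).restrictScalars ℝ) := rfl
  rw [h2, h]
  change Complex.normSq (LinearMap.det (L : V4 →ₗ[ℂ] V4)) = ‖L.det‖ ^ 2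
  rw [Complex.normSq_eq_norm_sq]

end Pool.Agent.Helper34.AB
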