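import Pool.Agent.Helper24.AB.NT.Goals

/-! # Project AB, packet NUM: elementary facts on the golden ratio numbers. -/

noncomputable section

namespace Pool.Agent.Helper34.AB

open Pool.Agent.Helper24.AB

theorem sqrt5_sq : Real.sqrt 5 * Real.sqrt 5 = 5 := Real.mul_self_sqrt (by norm_num)

theorem sqrt5_lo : (2.236 : ℝ) < Real.sqrt 5 := by
  apply Real.lt_sqrt_of_sq_lt; norm_num

theorem sqrt5_hi : Real.sqrt 5 < 2.2361 := by
  rw [Real.sqrt_lt' (by norm_num)]; norm_num

theorem ph_sq : ph ^ 2 = ph + 1 := by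
  have h := sqrt5_sq
  unfold ph; nlinarith

theorem ph'_sq : ph' ^ 2 = ph' + 1 := by
  have h := sqrt5_sq
  unfold ph'; nlinarith

theorem ph_mul : ph * ph' = -1 := by
  have h := sqrt5_sq
  unfold ph ph'; nlinarith

theorem ph_add : ph + ph' = 1 := by
  unfold ph ph'; ring

theorem ph_sub : ph - ph' = Real.sqrt 5 := by
  unfold ph ph'; ring

theorem lam_eq : lam = ph ^ 2 := by
  rw [ph_sq]; unfold lam ph; ring

theorem lam_lo : (2.618 : ℝ) < lam := by
  have := sqrt5_lo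
  unfold lam; linarith

theorem lam_hi : lam < 2.6181 := by
  have := sqrt5_hi
  unfold lam; linarith

theorem lam_inv : lam⁻¹ = ph' ^ 2 := by
  have h0 : lam ≠ 0 := by have := lam_lo; linarith
  have h1 : lam * ph' ^ 2 = 1 := by
    rw [lam_eq, ← mul_pow, ph_mul]; norm_num
  field_simp
  linarith

theorem loglam_lo : (0.9425 : ℝ) < Real.log lam := by
  have hl := lam_lo
  rw [Real.lt_log_iff_exp_lt (by linarith)]
  have h1 : Real.exp (0.9425 : ℝ) * Real.exp (0.0575 : ℝ) = Real.exp 1 := by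
    rw [← Real.exp_add]; norm_num
  have h2 : (0.0575 : ℝ) + 1 ≤ Real.exp (0.0575 : ℝ) := Real.add_one_le_exp _
  have h3 := Real.exp_one_lt_d9
  have h4 := Real.exp_pos (0.9425 : ℝ)
  nlinarith

theorem loglam_hi : Real.log lam < 0.965 := by
  have hl := lam_lo
  rw [Real.log_lt_iff_lt_exp (by linarith)]
  have h1 : Real.exp (0.965 : ℝ) = Real.exp 1 * Real.exp (-0.035 : ℝ) := by
    rw [← Real.exp_add]; norm_num
  have h2 : (-0.035 : ℝ) + 1 ≤ Real.exp (-0.035 : ℝ) := Real.add_one_le_exp _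
  have h3 := Real.exp_one_gt_d9
  have h4 := lam_hi
  rw [h1]
  nlinarith

theorem kap_lo : (0.15 : ℝ) < kap := by
  have h1 := loglam_lo
  have h2 := Real.pi_lt_d4
  have h3 := Real.pi_pos
  unfold kap
  rw [lt_div_iff₀ (by positivity)]
  nlinarith

theorem kap_hi' : kap < 0.1536 := by
  have h1 := loglam_hi
  have h2 := Real.pi_gt_d4
  have h3 := Real.pi_pos
  unfold kap
  rw [div_lt_iff₀ (by positivity)]
  nlinarith

theorem norm_eq (m n : ℝ) : (m * ph + n) * (m * ph' + n) = n ^ 2 + m * n - m ^ 2 := by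
  have h1 := ph_mul
  have h2 := ph_add
  have : (m * ph + n) * (m * ph' + n) = m ^ 2 * (ph * ph') + m * n * (ph + ph') + n ^ 2 := by ring
  rw [this, h1, h2]; ring

theorem nonzero (m n : ℤ) (h : m ≠ 0 ∨ n ≠ 0) : n ^ 2 + m * n - m ^ 2 ≠ 0 := by
  intro h0
  have h1 : (2 * n + m) ^ 2 = 5 * m ^ 2 := by linarith [h0, (by ring : (2 * n + m) ^ 2 = 4 * (n ^ 2 + m * n - m ^ 2) + 5 * m ^ 2)]
  by_cases hm : m = 0
  · subst hm
    have hn : n = 0 := by
      have : n ^ 2 = 0 := by linarith [h0, (by ring : n ^ 2 + 0 * n - 0 ^ 2 = n ^ 2)]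
      exact pow_eq_zero_iff (by norm_num) |>.1 this
    rcases h with h | h
    · exact h rfl
    · exact h hn
  · have h5 : Irrational (Real.sqrt 5) := by
      have := Nat.Prime.irrational_sqrt (by norm_num : Nat.Prime 5)
      exact_mod_cast this
    apply h5
    refine ⟨|(2 * n + m : ℤ)| / |m|, ?_⟩
    have hm' : (0 : ℝ) < |(m : ℝ)| := abs_pos.2 (by exact_mod_cast hm)
    have h2 : ((2 * n + m : ℤ) : ℝ) ^ 2 = 5 * (m : ℝ) ^ 2 := by exact_mod_cast h1
    have h3 : |((2 * n + m : ℤ) : ℝ)| = Real.sqrt 5 * |(m : ℝ)| := by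
      rw [← Real.sqrt_sq_eq_abs, h2, Real.sqrt_mul (by norm_num), Real.sqrt_sq_eq_abs]
    push_cast at h3 ⊢
    rw [h3]
    field_simp

theorem one_le (m n : ℤ) (h : m ≠ 0 ∨ n ≠ 0) :
    1 ≤ |((m : ℝ) * ph + n) * ((m : ℝ) * ph' + n)| := by
  rw [norm_eq]
  have h1 := nonzero m n h
  have h2 : (1 : ℤ) ≤ |n ^ 2 + m * n - m ^ 2| := Int.one_le_abs h1
  exact_mod_cast h2

theorem num : S_NUM := by
  have hs := sqrt5_sq
  have hlo := sqrt5_lo
  have hhi := sqrt5_hi
  have hk1 := kap_lo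
  have hk2 := kap_hi'
  refine ⟨ph_sq, ph'_sq, ph_mul, ph_add, ph_sub, lam_eq, lam_inv, ?_, ?_, lam_lo, lam_hi, ?_, ?_,
    ?_, ?_, hk1, by linarith, ?_, ?_, ?_, ?_, ?_, one_le, ?_, ?_⟩
  · rw [lam_inv, lam_eq, ph_sq, ph'_sq]
    have := ph_add; linarith
  · unfold lam; nlinarith
  · unfold ph; linarith
  · unfold ph; linarith
  · unfold ph'; linarith
  · unfold ph'; linarith
  · nlinarith
  · have hl := lam_lo
    have : kap * (2 * Real.pi) = Real.log lam := by
      unfold kap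
      have := Real.pi_pos
      field_simp
    rw [this, Real.exp_log (by linarith)]
  · intro J
    have h := ph_sq
    rw [lam_eq, h]
    simp only [alp, Jn, Matrix.cons_val_zero, Matrix.cons_val_one]
    push_cast
    linear_combination (-(J 0 : ℝ)) * h
  · intro J
    have h := ph'_sq
    rw [lam_inv, h]
    simp only [alp', Jn, Matrix.cons_val_zero, Matrix.cons_val_one]
    push_cast
    linear_combination (-(J 0 : ℝ)) * h
  · intro J
    simp only [alp, alp']
    rw [norm_eq]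
    push_cast
    ring
  · intro m n
    have e1 : (m : ℝ) * Real.sqrt 5 = ((m : ℝ) * ph + n) - ((m : ℝ) * ph' + n) := by
      rw [← ph_sub]; ring
    have e2 : (n : ℝ) * Real.sqrt 5 = ph * ((m : ℝ) * ph' + n) - ph' * ((m : ℝ) * ph + n) := by
      rw [← ph_sub]; ring
    have a1 := abs_nonneg ((m : ℝ) * ph + n)
    have a2 := abs_nonneg ((m : ℝ) * ph' + n)
    have b1 : |(m : ℝ)| * Real.sqrt 5 ≤ |(m : ℝ) * ph + n| + |(m : ℝ) * ph' + n| := by
      have : |(m : ℝ)| * Real.sqrt 5 = |(m : ℝ) * Real.sqrt 5| := by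
        rw [abs_mul, abs_of_nonneg (Real.sqrt_nonneg 5)]
      rw [this, e1]
      exact abs_sub _ _
    have hph : |ph| ≤ 2 := by
      rw [abs_le]; unfold ph; constructor <;> linarith
    have hph' : |ph'| ≤ 2 := by
      rw [abs_le]; unfold ph'; constructor <;> linarith
    have b2 : |(n : ℝ)| * Real.sqrt 5 ≤ 2 * |(m : ℝ) * ph + n| + 2 * |(m : ℝ) * ph' + n| := by
      have : |(n : ℝ)| * Real.sqrt 5 = |(n : ℝ) * Real.sqrt 5| := by
        rw [abs_mul, abs_of_nonneg (Real.sqrt_nonneg 5)]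
      rw [this, e2]
      refine (abs_sub _ _).trans ?_
      rw [abs_mul, abs_mul]
      nlinarith
    constructor
    · nlinarith [abs_nonneg (m : ℝ)]
    · nlinarith [abs_nonneg (n : ℝ)]
  · intro J hJ
    have h := one_le (J 0) (J 1) hJ
    have h' : 1 ≤ |alp J * alp' J| := h
    refine ⟨?_, ?_, h'⟩
    · intro h0; rw [h0] at h'; norm_num at h'
    · intro h0; rw [h0] at h'; norm_num at h'

end Pool.Agent.Helper34.AB
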