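import Pool.Agent.Helper95.AB.GoalsW

/-! # Project AB, packet CELLA: a cell with non-integral flux. -/

open MeasureTheory Set Filter Topology
open scoped ContDiff

noncomputable section

namespace Pool.Agent.Helper34.AB

open Pool.Agent.Helper24.AB Pool.Agent.Helper95.AB

theorem strip_open (a : ℝ) : IsOpen (strip a) := by
  have : strip a = (fun w : ℂ => |w.re|) ⁻¹' Iio a := rfl
  rw [this]
  exact isOpen_Iio.preimage (by fun_prop)

theorem contOn_gA {a : ℝ} {Φ : ℂ → ℝ} {φ : ℂ → ℂ} (hΦ : ContDiffOn ℝ ∞ Φ (strip a))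
    (hφ : ContDiff ℝ ∞ φ) : ContinuousOn (gA Φ φ) (strip a) := by
  have h1 : ContinuousOn (fun w => fderiv ℝ Φ w) (strip a) :=
    hΦ.continuousOn_fderiv_of_isOpen (strip_open a) (by simp)
  have h2 : Continuous (fun w => fderiv ℝ φ w) := hφ.continuous_fderiv (by simp)
  have h3 : Continuous φ := hφ.continuous
  have h4 : ContinuousOn (dT Φ) (strip a) := h1.clm_apply continuousOn_const
  have h5 : ContinuousOn (dS Φ) (strip a) := h1.clm_apply continuousOn_const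
  have h6 : Continuous (dT φ) := h2.clm_apply continuous_const
  have h7 : Continuous (dS φ) := h2.clm_apply continuous_const
  unfold gA
  have h4' : ContinuousOn (fun w => ((dT Φ w : ℝ) : ℂ)) (strip a) :=
    Complex.continuous_ofReal.comp_continuousOn h4
  have h5' : ContinuousOn (fun w => ((dS Φ w : ℝ) : ℂ)) (strip a) :=
    Complex.continuous_ofReal.comp_continuousOn h5
  exact (((h7.continuousOn.add ((continuousOn_const.mul h4').mul h3.continuousOn)).norm).pow 2).add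
    (((h6.continuousOn.sub ((continuousOn_const.mul h5').mul h3.continuousOn)).norm).pow 2)

/-- the closed square -/
def csq (x : ℂ) (ρ : ℝ) : Set ℂ :=
  {w | x.re - ρ / 2 ≤ w.re ∧ w.re ≤ x.re + ρ / 2 ∧ x.im - ρ / 2 ≤ w.im ∧ w.im ≤ x.im + ρ / 2}

theorem csq_eq (x : ℂ) (ρ : ℝ) : csq x ρ =
    Icc (x.re - ρ / 2) (x.re + ρ / 2) ×ℂ Icc (x.im - ρ / 2) (x.im + ρ / 2) := by
  ext w
  simp only [Complex.mem_reProdIm, mem_Icc, and_assoc]
  exact Iff.rfl

theorem csq_compact (x : ℂ) (ρ : ℝ) : IsCompact (csq x ρ) := by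
  rw [csq_eq]
  exact isCompact_Icc.reProdIm isCompact_Icc

theorem sq_sub (x : ℂ) (ρ : ℝ) : sq x ρ ⊆ csq x ρ := fun _ h => ⟨h.1, h.2.1.le, h.2.2.1, h.2.2.2.le⟩

theorem meas_sq (x : ℂ) (ρ : ℝ) : MeasurableSet (sq x ρ) := by
  have h : sq x ρ = Ico (x.re - ρ / 2) (x.re + ρ / 2) ×ℂ Ico (x.im - ρ / 2) (x.im + ρ / 2) := by
    ext w
    simp only [Complex.mem_reProdIm, mem_Ico, and_assoc]
    exact Iff.rfl
  rw [h]
  exact (measurableSet_Ico.preimage Complex.measurable_re).inter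
    (measurableSet_Ico.preimage Complex.measurable_im)

theorem csq_strip {a : ℝ} {x : ℂ} {ρ : ℝ} (h : |x.re| + ρ / 2 < a) : csq x ρ ⊆ strip a := by
  intro w hw
  have h1 := (abs_le.1 (le_refl |x.re|))
  change |w.re| < a
  rw [abs_lt]
  obtain ⟨h2, h3, -, -⟩ := hw
  constructor <;> linarith

theorem int_gA {a : ℝ} {Φ : ℂ → ℝ} {φ : ℂ → ℂ} {x : ℂ} {ρ : ℝ} (hΦ : ContDiffOn ℝ ∞ Φ (strip a))
    (hφ : ContDiff ℝ ∞ φ) (h : |x.re| + ρ / 2 < a) : IntegrableOn (gA Φ φ) (sq x ρ) :=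
  (((contOn_gA hΦ hφ).mono (csq_strip h)).integrableOn_compact (csq_compact x ρ)).mono_set
    (sq_sub x ρ)

theorem gA_nonneg (Φ : ℂ → ℝ) (φ : ℂ → ℂ) (w : ℂ) : 0 ≤ gA Φ φ w := by
  unfold gA; positivity

/-- the annulus of the cell -/
def anns (x : ℂ) (ρ : ℝ) : Set ℂ := Metric.ball x (ρ / 2) \ Metric.closedBall x (ρ / 4)

theorem anns_sub (x : ℂ) (ρ : ℝ) : anns x ρ ⊆ sq x ρ := by
  intro w hw
  have h := hw.1
  rw [Metric.mem_ball, dist_eq_norm] at h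
  have h1 := (Complex.abs_re_le_norm (w - x)).trans_lt h
  have h2 := (Complex.abs_im_le_norm (w - x)).trans_lt h
  rw [Complex.sub_re, abs_lt] at h1
  rw [Complex.sub_im, abs_lt] at h2
  exact ⟨by linarith, by linarith, by linarith, by linarith⟩

theorem small_sub {x : ℂ} {ρ : ℝ} (hρ : 0 < ρ) : sq (x + (3 / 8 * ρ : ℝ)) (ρ / 8) ⊆ anns x ρ := by
  intro w hw
  obtain ⟨h1, h2, h3, h4⟩ := hw
  simp only [Complex.add_re, Complex.ofReal_re, Complex.add_im, Complex.ofReal_im, add_zero] at h1 h2 h3 h4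
  have hn : ‖w - x‖ ^ 2 = (w.re - x.re) ^ 2 + (w.im - x.im) ^ 2 := by
    rw [← Complex.normSq_eq_norm_sq, Complex.normSq_apply, Complex.sub_re, Complex.sub_im]; ring
  have h0 := norm_nonneg (w - x)
  constructor
  · rw [Metric.mem_ball, dist_eq_norm]
    by_contra hc
    push Not at hc
    have : (ρ / 2) ^ 2 ≤ ‖w - x‖ ^ 2 := pow_le_pow_left₀ (by positivity) hc 2
    rw [hn] at this
    nlinarith
  · rw [Metric.mem_closedBall, dist_eq_norm]
    intro hc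
    have : ‖w - x‖ ^ 2 ≤ (ρ / 4) ^ 2 := pow_le_pow_left₀ h0 hc 2
    rw [hn] at this
    nlinarith

theorem cella (h1 : S_ANN) (h2 : S_SPREAD) : S_CELLA := by
  intro a Φ φ x ρ hρ hΦ hφ hx hfl
  have hA := h1 a Φ φ x ρ hρ hΦ hφ hx hfl
  have hS := h2 a Φ φ x ρ hρ hΦ hφ hx
  have hc : Continuous fun w => ‖φ w‖ ^ 2 := (hφ.continuous.norm).pow 2
  have hi : IntegrableOn (fun w => ‖φ w‖ ^ 2) (anns x ρ) :=
    (hc.continuousOn.integrableOn_compact (csq_compact x ρ)).mono_set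
      ((anns_sub x ρ).trans (sq_sub x ρ))
  have e1 : ∫ w in sq (x + (3 / 8 * ρ : ℝ)) (ρ / 8), ‖φ w‖ ^ 2 ≤ ∫ w in anns x ρ, ‖φ w‖ ^ 2 :=
    setIntegral_mono_set hi (Eventually.of_forall fun w => by positivity)
      (LE.le.eventuallyLE (small_sub hρ))
  have hg := int_gA (x := x) (ρ := ρ) hΦ hφ hx
  have e2 : ∫ w in anns x ρ, gA Φ φ w ≤ ∫ w in sq x ρ, gA Φ φ w :=
    setIntegral_mono_set hg (Eventually.of_forall fun w => gA_nonneg Φ φ w)
      (LE.le.eventuallyLE (anns_sub x ρ))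
  have e3 : ∫ w in anns x ρ, ‖φ w‖ ^ 2 ≤ 250 * ρ ^ 2 * ∫ w in anns x ρ, gA Φ φ w := hA
  have e4 : 0 ≤ ∫ w in sq x ρ, gA Φ φ w := integral_nonneg fun w => gA_nonneg Φ φ w
  have e5 : 250 * ρ ^ 2 * ∫ w in anns x ρ, gA Φ φ w ≤ 250 * ρ ^ 2 * ∫ w in sq x ρ, gA Φ φ w :=
    mul_le_mul_of_nonneg_left e2 (by positivity)
  have e6 : 0 ≤ ρ ^ 2 * ∫ w in sq x ρ, gA Φ φ w := mul_nonneg (by positivity) e4
  nlinarith

end Pool.Agent.Helper34.AB
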